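import Pool.Agent.P.MP_b1ffdf_al.Block

set_option autoImplicit false

open Classical

namespace Pool.Agent.Results.MP_b1ffdf_al.EmbeddedDefect

/-- Let `χ` be a primitive irreducible character, `𝔓` a prime of the algebraic integers over `p`,
`x` an element whose central character value `|G : C(x)| χ(x) / χ(1)` is not in `𝔓`, and `D` a
Sylow `p`-subgroup of `C(x)` (so `D` contains a defect group of the `p`-block of `χ`, and is one
for a defect class).  If a proper subgroup `H` contains every `y` conjugating an element of `D`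
of order greater than `p ^ a` into `D`, and the `p`-part of the conductor of `χ` exceeds `p ^ a`,
then `ℚ(χ) = ℚ(ψ)` for an irreducible character `ψ` of a proper self-normalizing subgroup. -/
theorem result :
    ∀ (G : Type) [Group G] [Fintype G] (V : FDRep ℂ G),
      CategoryTheory.Simple V →
      (¬ ∃ (K : Subgroup G) (W : FDRep ℂ K), K ≠ ⊤ ∧
          ∀ g : G, V.character g =
            (Nat.card K : ℂ)⁻¹ *
              ∑ x : G, (if h : x * g * x⁻¹ ∈ K then W.character ⟨x * g * x⁻¹, h⟩ else 0)) →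
      ∀ (p a : ℕ) (𝔓 : Ideal (integralClosure ℤ ℂ)) (x : G)
        (D : Sylow p (Subgroup.centralizer ({x} : Set G))) (H : Subgroup G),
        p.Prime → 𝔓.IsPrime → (p : integralClosure ℤ ℂ) ∈ 𝔓 →
        (∀ w ∈ 𝔓, (w : ℂ) ≠
          (Subgroup.centralizer ({x} : Set G)).index * V.character x / V.character 1) →
        H ≠ ⊤ →
        (∀ u ∈ D, ∀ v ∈ D, u ^ p ^ a ≠ 1 → ∀ y : G, y * u * y⁻¹ = v → y ∈ H) →
        (∃ g, V.character g ∉
          IntermediateField.adjoin ℚ {z : ℂ | ∃ m, ¬ p ∣ m ∧ z ^ (m * p ^ a) = 1}) →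
      ∃ (H : Subgroup G) (W : FDRep ℂ H), H ≠ ⊤ ∧ Subgroup.normalizer (H : Set G) = H ∧
        CategoryTheory.Simple W ∧
        IntermediateField.adjoin ℚ (Set.range V.character) =
          IntermediateField.adjoin ℚ (Set.range W.character) :=
  fun _ _ _ V hV hprim _ _ 𝔓 x D H hp h𝔓 hp𝔓 hx hH hD hg =>
    Pool.Agent.P.MP_b1ffdf_al.block V hV hprim hp 𝔓 h𝔓 hp𝔓 x hx D H hH hD hg

end Pool.Agent.Results.MP_b1ffdf_al.EmbeddedDefect
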