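import Pool.Agent.P.MP_b1ffdf_al.Loc.Feit

set_option autoImplicit false

open Classical

namespace Pool.Agent.Results.MP_b1ffdf_al.FeitSixPrimes

/-- Let `F` be a subfield of the field of values of an irreducible character, `c` its conductor
and `m` a divisor of `c`.  Suppose that for any two different primes `s`, `t` at which the Sylow
subgroups of the Galois group of `F` are not cyclic, at most `s + t + 1` primes `l` dividing `m`
satisfy `l = s`, `l = t` or `¬ l ^ 2 ∣ c`.  Then the group has an element of order `m`. -/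
theorem result :
    ∀ (G : Type) [Group G] [Fintype G] (V : FDRep ℂ G), CategoryTheory.Simple V →
      ∀ (F : IntermediateField ℚ ℂ) (c m : ℕ),
        F ≤ IntermediateField.adjoin ℚ (Set.range V.character) →
        IsLeast {n : ℕ | 0 < n ∧ F ≤ IntermediateField.adjoin ℚ {z : ℂ | z ^ n = 1}} c →
        m ∣ c →
        (∀ s t : ℕ, s.Prime → t.Prime → s ≠ t →
          (∃ P : Sylow s (F ≃ₐ[ℚ] F), ¬ IsCyclic P) → (∃ P : Sylow t (F ≃ₐ[ℚ] F), ¬ IsCyclic P) →
          (m.primeFactors.filter fun l => ¬ l ^ 2 ∣ c ∨ l = s ∨ l = t).card ≤ s + t + 1) →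
        ∃ g : G, orderOf g = m := by
  intro G _ _ V hV F c m hF hc hm h
  have c0 := hc.1.1.ne'
  obtain ⟨g, μ, v, v0, hv, hμ⟩ := P.MP_b1ffdf_al.Loc.feit V hV F c m.primeFactors hF hc
    (fun l hl => ⟨Nat.prime_of_mem_primeFactors hl, (Nat.dvd_of_mem_primeFactors hl).trans hm⟩) h
  have m0 := ne_zero_of_dvd_ne_zero c0 hm
  have h1 : m ∣ orderOf μ := (Nat.dvd_iff_prime_pow_dvd_dvd _ _).2 fun p k hp hk => by
    obtain _ | k := k
    · simp
    exact (pow_dvd_pow p ((hp.pow_dvd_iff_le_factorization c0).1 (hk.trans hm))).trans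
      (hμ p (Nat.mem_primeFactors.2 ⟨hp, (dvd_pow_self p k.succ_ne_zero).trans hk, m0⟩))
  have h2 : orderOf μ ∣ orderOf g := orderOf_dvd_of_pow_eq_one (smul_left_injective ℂ v0 (by
    simp only [← P.MP_b1ffdf_al.Loc.eig_pow hv, ← map_pow, pow_orderOf_eq_one, map_one, one_smul,
      Module.End.one_apply]))
  exact ⟨_, orderOf_pow_orderOf_div (orderOf_pos g).ne' (h1.trans h2)⟩

end Pool.Agent.Results.MP_b1ffdf_al.FeitSixPrimes
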