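import Pool.Agent.P.MP_b1ffdf_al.Loc.Weak

set_option autoImplicit false

open Classical

namespace Pool.Agent.Results.MP_b1ffdf_al.PrimeLocal

/-- Let `χ` be an irreducible character of a group that is not solvable, `r` a prime and `F` a
subfield of `ℚ(χ)` whose Galois group has cyclic Sylow subgroups at all primes other than `r`.
Then a proper self-normalizing solvable subgroup `H` has an irreducible constituent `ψ` of the
restriction of `χ` such that `F ≤ ℚ(ψ)` and the fields `ℚ(χ)`, `ℚ(ψ)` have the same subfields of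
degree a power of `r`. -/
theorem result :
    ∀ (G : Type) [Group G] [Fintype G] (V : FDRep ℂ G),
      CategoryTheory.Simple V → ¬ Group.IsSolvable G →
      ∀ (r : ℕ) (F : IntermediateField ℚ ℂ), r.Prime →
        F ≤ IntermediateField.adjoin ℚ (Set.range V.character) →
        (∀ s : ℕ, s.Prime → s ≠ r → ∀ P : Sylow s (F ≃ₐ[ℚ] F), IsCyclic P) →
      ∃ (H : Subgroup G) (W : FDRep ℂ H), H ≠ ⊤ ∧ Subgroup.normalizer (H : Set G) = H ∧
        Group.IsSolvable H ∧ CategoryTheory.Simple W ∧
        ∑ h : H, V.character h * W.character h⁻¹ ≠ 0 ∧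
        F ≤ IntermediateField.adjoin ℚ (Set.range W.character) ∧
        ∀ (E : IntermediateField ℚ ℂ) (n : ℕ), Module.finrank ℚ E = r ^ n →
          (E ≤ IntermediateField.adjoin ℚ (Set.range V.character) ↔
            E ≤ IntermediateField.adjoin ℚ (Set.range W.character)) := by
  intro G _ _ V hV hG r F hr hF h
  obtain ⟨H, W, h1, h2, h3, h4⟩ := P.MP_b1ffdf_al.Loc.weak V hV hr F hF h
  refine ⟨H, W, ?_, P.MP_b1ffdf_al.Loc.normalizer_eq h1, h1.1, h2, right_ne_zero_of_mul h3, h4⟩
  rintro rfl
  haveI := h1.1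
  exact hG (Group.isSolvable_of_surjective (f := (⊤ : Subgroup G).subtype) fun g => ⟨⟨g, trivial⟩, rfl⟩)

end Pool.Agent.Results.MP_b1ffdf_al.PrimeLocal
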